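import Pool.Agent.Lib_helper57.AP.Final

/-!
# Sums of Apery polynomials at special arguments modulo `p^2`

Full answer (proof) to Q1 of MP_a1c035_nt.
-/

namespace Pool.Agent.Results.MP_a1c035_nt.AperySpecialArgs

open Finset

/-- the Apery polynomial `A_n(x) = ∑_{k=0}^n C(n,k)^2 C(n+k,k)^2 x^k` at a rational argument -/
def aperyPoly (n : ℕ) (x : ℚ) : ℚ :=
  ∑ k ∈ range (n + 1), ((n.choose k : ℕ) : ℚ) ^ 2 * (((n + k).choose k : ℕ) : ℚ) ^ 2 * x ^ k

/-- the multinomial coefficient `(4k)!/(k!)^4` -/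
def multinom (k : ℕ) : ℚ := ((4 * k).factorial : ℚ) / ((k.factorial : ℚ)) ^ 4

/-- the set `S` of the fifteen special arguments -/
def specialArgs : Set ℚ :=
  {1, -4, 9, -48, 81, -324, 2401, 9801, -25920, -777924, 96059601,
    81 / 256, -9 / 16, 81 / 32, -3969 / 256}

/-- the Legendre symbol `(x/p) = (a/p)(b/p)` of `x = a/b` -/
noncomputable def legSym (p : ℕ) [Fact p.Prime] (x : ℚ) : ℤ :=
  legendreSym p x.num * legendreSym p (x.den : ℤ)

open Pool.Agent.Lib_helper57.AP

theorem exists_of_PI (p : ℕ) [Fact p.Prime] (r : ℚ) (h : PI 2 ((r : ℚ_[p]))) :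
    ∃ c : ℚ, ¬ p ∣ c.den ∧ r = (p : ℚ) ^ 2 * c := by
  have hp0 : (p : ℚ) ≠ 0 := by exact_mod_cast (Fact.out : p.Prime).ne_zero
  refine ⟨r / (p : ℚ) ^ 2, ?_, by field_simp⟩
  have h1 : ‖((r / (p : ℚ) ^ 2 : ℚ) : ℚ_[p])‖ ≤ 1 := by
    unfold PI at h
    have hpp : (0 : ℝ) < p := by exact_mod_cast (Fact.out : p.Prime).pos
    push_cast
    rw [norm_div, norm_pow, Padic.norm_p]
    rw [div_le_one (by positivity)]
    refine h.trans (le_of_eq ?_)
    rw [zpow_neg]
    norm_num
  rw [Padic.norm_rat_le_one_iff_padicValuation_le_one, Rat.padicValuation_le_one_iff] at h1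
  exact h1

/-- the numerator of `x` and of `m = 256 x` are divisible by the same primes `p > 3` and the symbols agree -/
theorem arg_facts (p : ℕ) [hpf : Fact p.Prime] (h3 : 3 < p) (x : ℚ) (m : ℤ) (hx : 256 * x = m)
    (hpx : ¬ (p : ℤ) ∣ x.num) : ¬ (p : ℤ) ∣ m ∧ legendreSym p m = legSym p x := by
  have hpp : p.Prime := hpf.out
  have e1 : (m : ℤ) * x.den = 256 * x.num := by
    have hd : (x.den : ℚ) ≠ 0 := by exact_mod_cast x.den_ne_zero
    have h1 : (m : ℚ) * (x.den : ℚ) = 256 * (x.num : ℚ) := by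
      rw [← hx, mul_assoc, Rat.mul_den_eq_num]
    exact_mod_cast h1
  have hp2 : ¬ (p : ℤ) ∣ 256 := by
    intro h
    have h' : p ∣ 2 ^ 8 := by exact_mod_cast h
    have := hpp.dvd_of_dvd_pow h'
    have := Nat.le_of_dvd (by norm_num) this
    omega
  have hpi : Prime (p : ℤ) := Nat.prime_iff_prime_int.1 hpp
  have hm : ¬ (p : ℤ) ∣ m := by
    intro h
    have h' : (p : ℤ) ∣ 256 * x.num := by rw [← e1]; exact Dvd.dvd.mul_right h _
    rcases hpi.dvd_or_dvd h' with h | h
    · exact hp2 h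
    · exact hpx h
  have hden : ¬ (p : ℤ) ∣ (x.den : ℤ) := by
    intro h
    have h' : (p : ℤ) ∣ 256 * x.num := by rw [← e1]; exact Dvd.dvd.mul_left h _
    rcases hpi.dvd_or_dvd h' with h | h
    · exact hp2 h
    · exact hpx h
  refine ⟨hm, ?_⟩
  have hden0 : ((x.den : ℤ) : ZMod p) ≠ 0 := by
    rwa [Ne, ZMod.intCast_zmod_eq_zero_iff_dvd]
  have h20 : ((2 : ℤ) : ZMod p) ≠ 0 := by
    rw [Ne, ZMod.intCast_zmod_eq_zero_iff_dvd]
    intro h
    exact hp2 (h.trans (by norm_num))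
  have h256 : legendreSym p 256 = 1 := by
    have : (256 : ℤ) = (16 : ℤ) ^ 2 := by norm_num
    rw [this, legendreSym.sq_one']
    · rw [Ne, ZMod.intCast_zmod_eq_zero_iff_dvd]
      intro h
      exact hp2 (h.trans (by norm_num))
  have e2 : legendreSym p m * legendreSym p (x.den : ℤ) = legendreSym p x.num := by
    rw [← legendreSym.mul, e1, legendreSym.mul, h256, one_mul]
  have e3 : legendreSym p (x.den : ℤ) * legendreSym p (x.den : ℤ) = 1 := by
    rw [← sq]; exact legendreSym.sq_one p hden0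
  unfold legSym
  rw [← e2, mul_assoc, e3, mul_one]

/-- **Sums of Apery polynomials at special arguments.**  For every prime `p > 3` and every `x` in the set `S`
with `x ≢ 0 mod p`, `∑_{k<p} A_k(x) ≡ (x/p) ∑_{k<p} ((4k)!/(k!)^4) / (256x)^k mod p^2`, i.e. the difference is
`p^2 c` with `c` a rational number whose denominator is prime to `p`. -/
theorem result (p : ℕ) [Fact p.Prime] (h3 : 3 < p) (x : ℚ) (hx : x ∈ specialArgs)
    (hpx : ¬ (p : ℤ) ∣ x.num) :
    ∃ c : ℚ, ¬ p ∣ c.den ∧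
      (∑ n ∈ range p, aperyPoly n x)
        - (legSym p x : ℚ) * (∑ k ∈ range p, multinom k / (256 * x) ^ k) = (p : ℚ) ^ 2 * c := by
  obtain ⟨m, hm, hml⟩ : ∃ m : ℤ, 256 * x = m ∧ m ∈ mvals := by
    simp only [specialArgs, Set.mem_insert_iff, Set.mem_singleton_iff] at hx
    rcases hx with h | h | h | h | h | h | h | h | h | h | h | h | h | h | h <;> subst h
    · exact ⟨256, by norm_num, by simp [mvals]⟩
    · exact ⟨-1024, by norm_num, by simp [mvals]⟩
    · exact ⟨2304, by norm_num, by simp [mvals]⟩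
    · exact ⟨-12288, by norm_num, by simp [mvals]⟩
    · exact ⟨20736, by norm_num, by simp [mvals]⟩
    · exact ⟨-82944, by norm_num, by simp [mvals]⟩
    · exact ⟨614656, by norm_num, by simp [mvals]⟩
    · exact ⟨2509056, by norm_num, by simp [mvals]⟩
    · exact ⟨-6635520, by norm_num, by simp [mvals]⟩
    · exact ⟨-199148544, by norm_num, by simp [mvals]⟩
    · exact ⟨24591257856, by norm_num, by simp [mvals]⟩
    · exact ⟨81, by norm_num, by simp [mvals]⟩
    · exact ⟨-144, by norm_num, by simp [mvals]⟩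
    · exact ⟨648, by norm_num, by simp [mvals]⟩
    · exact ⟨-3969, by norm_num, by simp [mvals]⟩
  obtain ⟨hpm, hleg⟩ := arg_facts p h3 x m hm hpx
  have hs := star_all p h3 m hml hpm
  have h5 := R5 p h3 x m hm hpm hs
  apply exists_of_PI
  have e1 : ∀ n, aperyPoly n x = AA n x := fun n => rfl
  have e2 : ∀ k, multinom k = (bb k : ℚ) := by
    intro k
    unfold multinom
    have h0 : ((k.factorial : ℚ)) ^ 4 ≠ 0 := by
      have := k.factorial_ne_zero
      positivity
    rw [div_eq_iff h0]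
    exact_mod_cast (bb_eq k).symm
  have e3 : (((∑ n ∈ range p, aperyPoly n x)
      - (legSym p x : ℚ) * (∑ k ∈ range p, multinom k / (256 * x) ^ k) : ℚ) : ℚ_[p]) =
      (((∑ n ∈ range p, AA n x : ℚ) : ℚ_[p])
      - ((legendreSym p m : ℤ) : ℚ_[p]) * ∑ k ∈ range p, (bb k : ℚ_[p]) * ((m : ℚ_[p])⁻¹) ^ k) := by
    simp only [e1, e2, hm, hleg]
    push_cast
    simp only [div_eq_mul_inv, inv_pow]
  rw [e3]
  exact h5

end Pool.Agent.Results.MP_a1c035_nt.AperySpecialArgs
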